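import Pool.Agent.L0h19.QE.Stm

set_option autoImplicit false

/-! # Project QE (helper19): module MOM, the sixth moment -/

namespace Pool.Agent.L0h92.QE

open Finset
open Pool.Agent.L0h87.LE (ee odds)
open Pool.Agent.L0h19.QE

theorem ee_add (a b : ℝ) : ee (a + b) = ee a * ee b := by
  unfold ee
  rw [← Complex.exp_add]
  congr 1
  push_cast
  ring

theorem ee_zero : ee 0 = 1 := by
  unfold ee
  rw [Complex.ofReal_zero, mul_zero, Complex.exp_zero]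

theorem ee_conj (t : ℝ) : (starRingEnd ℂ) (ee t) = ee (-t) := by
  unfold ee
  rw [← Complex.exp_conj]
  congr 1
  simp only [map_mul, Complex.conj_I, Complex.conj_ofReal, map_ofNat, Complex.ofReal_neg]
  ring

theorem ee_pow (t : ℝ) (n : ℕ) : ee t ^ n = ee (t * n) := by
  unfold ee
  rw [← Complex.exp_nat_mul]
  congr 1
  push_cast
  ring

theorem ee_int (n : ℤ) : ee n = 1 := by
  unfold ee
  rw [Complex.exp_eq_one_iff]
  refine ⟨n, ?_⟩
  push_cast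
  ring

theorem geo {Q : ℕ} (hQ : 0 < Q) (t : ℤ) (ht : |t| < Q) :
    ∑ r ∈ range Q, ee ((t : ℝ) * r / Q) = if t = 0 then (Q : ℂ) else 0 := by
  have hQr : (Q : ℝ) ≠ 0 := by positivity
  split_ifs with h
  · rw [h]
    simp only [Int.cast_zero, zero_mul, zero_div, ee_zero, sum_const, card_range, nsmul_eq_mul,
      mul_one]
  · have h1 : ∀ r : ℕ, ee ((t : ℝ) * r / Q) = ee ((t : ℝ) / Q) ^ r := by
      intro r
      rw [ee_pow]
      congr 1
      ring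
    have hne : ee ((t : ℝ) / Q) ≠ 1 := by
      intro h2
      unfold ee at h2
      rw [Complex.exp_eq_one_iff] at h2
      obtain ⟨n, hn⟩ := h2
      have h3 : (((t : ℝ) / Q : ℝ) : ℂ) = n := by
        have h4 : (2 * Real.pi * Complex.I : ℂ) ≠ 0 := Complex.two_pi_I_ne_zero
        apply mul_left_cancel₀ h4
        rw [hn]
        ring
      have h5 : (t : ℝ) / Q = n := by exact_mod_cast h3
      rw [div_eq_iff hQr] at h5
      have h6 : t = n * Q := by exact_mod_cast h5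
      rw [h6, abs_mul, Nat.abs_cast] at ht
      have hn0 : n ≠ 0 := by
        rintro rfl
        exact h (by rw [h6, zero_mul])
      have h7 : 1 ≤ |n| := Int.one_le_abs hn0
      have h8 : (0 : ℤ) < Q := by exact_mod_cast hQ
      nlinarith
    rw [sum_congr rfl fun r _ => h1 r, geom_sum_eq hne, ee_pow, div_mul_cancel₀ _ hQr, ee_int,
      sub_self, zero_div]

theorem t_MOM : S_MOM := by
  intro hE w C a N Q hC hw ha hQ
  have hQ0 : 0 < Q := by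
    have h1 : (0 : ℤ) ≤ 3 * |a| * (N : ℤ) ^ 2 := by positivity
    have h2 : (0 : ℤ) < Q := lt_of_le_of_lt h1 hQ
    exact_mod_cast h2
  have hQr : (0 : ℝ) < Q := by exact_mod_cast hQ0
  obtain ⟨P, hP⟩ : ∃ P : Finset (Fin 3 → ℕ), P = Fintype.piFinset fun _ : Fin 3 => odds N :=
    ⟨_, rfl⟩
  obtain ⟨W, hW⟩ : ∃ W : (Fin 3 → ℕ) → ℝ, W = fun p => w (p 0) * w (p 1) * w (p 2) := ⟨_, rfl⟩
  obtain ⟨t, ht⟩ : ∃ t : (Fin 3 → ℕ) → (Fin 3 → ℕ) → ℤ,
    t = fun p q => a * (∑ i, (p i : ℤ) ^ 2 - ∑ i, (q i : ℤ) ^ 2) := ⟨_, rfl⟩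
  -- the square of the cube
  have key : ∀ r : ℕ, ((‖S2 w N (a * r / Q)‖ ^ 6 : ℝ) : ℂ) =
      ∑ p ∈ P, ∑ q ∈ P, ((W p * W q : ℝ) : ℂ) * ee ((t p q : ℝ) * r / Q) := by
    intro r
    obtain ⟨z, hz⟩ : ∃ z, z = S2 w N (a * r / Q) := ⟨_, rfl⟩
    have h1 : z ^ 3 = ∑ p ∈ P, (W p : ℂ) * ee ((a * r / Q) * ((p 0 : ℝ) ^ 2 + (p 1 : ℝ) ^ 2 +
        (p 2 : ℝ) ^ 2)) := by
      have h2 : z ^ 3 = ∏ _i : Fin 3, z := by
        rw [prod_const, card_univ, Fintype.card_fin]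
      rw [h2, hz]
      unfold S2
      rw [prod_univ_sum, hP]
      refine sum_congr rfl fun p _ => ?_
      rw [Fin.prod_univ_three, mul_add, mul_add, ee_add, ee_add, hW]
      push_cast
      ring
    have h2 : ((‖z‖ ^ 6 : ℝ) : ℂ) = z ^ 3 * (starRingEnd ℂ) (z ^ 3) := by
      rw [Complex.mul_conj, Complex.normSq_eq_norm_sq, norm_pow, ← pow_mul]
    rw [← hz, h2, h1, map_sum, sum_mul_sum]
    refine sum_congr rfl fun p _ => sum_congr rfl fun q _ => ?_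
    rw [map_mul, ee_conj, Complex.conj_ofReal]
    have h3 : ee ((t p q : ℝ) * r / Q) =
        ee ((a * r / Q) * ((p 0 : ℝ) ^ 2 + (p 1 : ℝ) ^ 2 + (p 2 : ℝ) ^ 2)) *
        ee (-((a * r / Q) * ((q 0 : ℝ) ^ 2 + (q 1 : ℝ) ^ 2 + (q 2 : ℝ) ^ 2))) := by
      rw [← ee_add]
      congr 1
      simp only [ht, Fin.sum_univ_three]
      push_cast
      ring
    rw [h3]
    push_cast
    ring
  -- the sizes
  have hmem : ∀ p ∈ P, ∀ i, (p i : ℤ) ^ 2 ≤ (N : ℤ) ^ 2 ∧ 0 ≤ (p i : ℤ) ^ 2 := by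
    intro p hp i
    rw [hP, Fintype.mem_piFinset] at hp
    have h1 := hp i
    unfold odds at h1
    rw [mem_filter, mem_Icc] at h1
    have h2 : (p i : ℤ) ≤ N := by exact_mod_cast h1.1.2
    have h3 : (0 : ℤ) ≤ p i := Int.natCast_nonneg _
    exact ⟨pow_le_pow_left₀ h3 h2 2, by positivity⟩
  have hsz : ∀ p ∈ P, ∀ q ∈ P, |t p q| < Q := by
    intro p hp q hq
    have h1 : |∑ i, (p i : ℤ) ^ 2 - ∑ i, (q i : ℤ) ^ 2| ≤ 3 * (N : ℤ) ^ 2 := by
      rw [Fin.sum_univ_three, Fin.sum_univ_three, abs_le]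
      have p0 := hmem p hp 0
      have p1 := hmem p hp 1
      have p2 := hmem p hp 2
      have q0 := hmem q hq 0
      have q1 := hmem q hq 1
      have q2 := hmem q hq 2
      constructor <;> linarith
    rw [ht]
    show |a * (∑ i, (p i : ℤ) ^ 2 - ∑ i, (q i : ℤ) ^ 2)| < Q
    rw [abs_mul]
    have h2 := mul_le_mul_of_nonneg_left h1 (abs_nonneg a)
    linarith
  have hsum : ((∑ r ∈ range Q, ‖S2 w N (a * r / Q)‖ ^ 6 : ℝ) : ℂ) =
      Q * ∑ x ∈ eqs N, ((W x.1 * W x.2 : ℝ) : ℂ) := by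
    rw [Complex.ofReal_sum, sum_congr rfl fun r _ => key r, sum_comm]
    unfold eqs
    rw [sum_filter, sum_product, ← hP, mul_sum]
    refine sum_congr rfl fun p hp => ?_
    rw [sum_comm, mul_sum]
    refine sum_congr rfl fun q hq => ?_
    rw [← mul_sum, geo hQ0 _ (hsz p hp q hq)]
    by_cases h : ∑ i, (p i : ℤ) ^ 2 = ∑ i, (q i : ℤ) ^ 2
    · have h1 : t p q = 0 := by
        rw [ht]
        show a * (∑ i, (p i : ℤ) ^ 2 - ∑ i, (q i : ℤ) ^ 2) = 0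
        rw [h, sub_self, mul_zero]
      rw [if_pos h1, if_pos h, mul_comm]
    · have h1 : t p q ≠ 0 := by
        rw [ht]
        show a * (∑ i, (p i : ℤ) ^ 2 - ∑ i, (q i : ℤ) ^ 2) ≠ 0
        exact mul_ne_zero ha (sub_ne_zero.2 h)
      rw [if_neg h1, if_neg h, mul_zero, mul_zero]
  have hWb : ∀ p, |W p| ≤ C ^ 3 := by
    intro p
    rw [hW]
    show |w (p 0) * w (p 1) * w (p 2)| ≤ C ^ 3
    rw [abs_mul, abs_mul]
    have h0 := hw (p 0)
    have h1 := hw (p 1)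
    have h2 := hw (p 2)
    calc |w (p 0)| * |w (p 1)| * |w (p 2)| ≤ C * C * C := by gcongr
      _ = C ^ 3 := by ring
  have hreal : ∑ r ∈ range Q, ‖S2 w N (a * r / Q)‖ ^ 6 ≤ Q * (432 * C ^ 6 * (N : ℝ) ^ 4) := by
    have h0 : 0 ≤ ∑ r ∈ range Q, ‖S2 w N (a * r / Q)‖ ^ 6 := sum_nonneg fun r _ => by positivity
    have h1 : ‖((∑ r ∈ range Q, ‖S2 w N (a * r / Q)‖ ^ 6 : ℝ) : ℂ)‖ ≤
        Q * (432 * C ^ 6 * (N : ℝ) ^ 4) := by
      rw [hsum, norm_mul, Complex.norm_natCast]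
      refine mul_le_mul_of_nonneg_left ?_ hQr.le
      calc ‖∑ x ∈ eqs N, ((W x.1 * W x.2 : ℝ) : ℂ)‖
          ≤ ∑ x ∈ eqs N, ‖((W x.1 * W x.2 : ℝ) : ℂ)‖ := norm_sum_le _ _
        _ ≤ ∑ _x ∈ eqs N, C ^ 6 := by
            refine sum_le_sum fun x _ => ?_
            rw [Complex.norm_real, Real.norm_eq_abs, abs_mul]
            calc |W x.1| * |W x.2| ≤ C ^ 3 * C ^ 3 :=
                  mul_le_mul (hWb _) (hWb _) (abs_nonneg _) (by positivity)
              _ = C ^ 6 := by ring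
        _ = ((eqs N).card : ℝ) * C ^ 6 := by rw [sum_const, nsmul_eq_mul]
        _ ≤ 432 * (N : ℝ) ^ 4 * C ^ 6 := mul_le_mul_of_nonneg_right (hE N) (by positivity)
        _ = 432 * C ^ 6 * (N : ℝ) ^ 4 := by ring
    rw [Complex.norm_real, Real.norm_eq_abs, abs_of_nonneg h0] at h1
    exact h1
  rw [one_div, inv_mul_le_iff₀ hQr]
  exact hreal

end Pool.Agent.L0h92.QE
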